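import Pool.Agent.Helper57.SS.Goals2

/-!
# Project SS (MP_9a4587_an), packet EC: ergodic decomposition
-/

set_option autoImplicit false

namespace Pool.Agent.Helper77.SS

open MeasureTheory ProbabilityTheory Filter Topology Pool.Agent.Helper57.SS

theorem sq_of_el {α : Type} [MeasurableSpace α] {μ : Measure α} [IsProbabilityMeasure μ]
    {u : ℕ → α → ℝ} (hm : ∀ N, AEStronglyMeasurable (u N) μ) {C : ℝ}
    (hb : ∀ N, ∀ᵐ x ∂μ, |u N x| ≤ C) (h : Tendsto (fun N => eLpNorm (u N) 2 μ) atTop (𝓝 0)) :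
    Tendsto (fun N => ∫ x, (u N x) ^ 2 ∂μ) atTop (𝓝 0) := by
  have hL : ∀ N, MemLp (u N) 2 μ := fun N =>
    MemLp.of_bound (hm N) C (by filter_upwards [hb N] with x hx; rwa [Real.norm_eq_abs])
  have e : ∀ N : ℕ, ∫ x, (u N x) ^ 2 ∂μ = (eLpNorm (u N) 2 μ ^ 2).toReal := by
    intro N
    have e1 : eLpNorm (u N) 2 μ = ENNReal.ofReal ((∫ x, (u N x) ^ 2 ∂μ) ^ (1 / 2 : ℝ)) := by
      rw [(hL N).eLpNorm_eq_integral_rpow_norm (by norm_num) (by norm_num)]
      have e2 : (2 : ENNReal).toReal = 2 := by norm_num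
      rw [e2]
      have e3 : ∫ x, ‖u N x‖ ^ (2 : ℝ) ∂μ = ∫ x, (u N x) ^ 2 ∂μ := by
        refine integral_congr_ae (Eventually.of_forall fun x => ?_)
        show ‖u N x‖ ^ (2 : ℝ) = (u N x) ^ 2
        rw [Real.norm_eq_abs, Real.rpow_two, sq_abs]
      rw [e3]
      norm_num
    have hnn : 0 ≤ ∫ x, (u N x) ^ 2 ∂μ := integral_nonneg fun x => sq_nonneg _
    rw [e1, ← ENNReal.ofReal_pow (Real.rpow_nonneg hnn _), ENNReal.toReal_ofReal (by positivity),
      ← Real.sqrt_eq_rpow, Real.sq_sqrt hnn]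
  simp_rw [e]
  have h1 : Tendsto (fun N => eLpNorm (u N) 2 μ ^ 2) atTop (𝓝 (0 ^ 2)) :=
    ((ENNReal.continuous_pow 2).tendsto 0).comp h
  rw [zero_pow two_ne_zero] at h1
  have h2 := (ENNReal.tendsto_toReal ENNReal.zero_ne_top).comp h1
  rw [ENNReal.toReal_zero] at h2
  exact h2

theorem meas_Av {α : Type} [MeasurableSpace α] (T : α ≃ᵐ α) (a b : ℕ → ℕ) {f g : α → ℝ}
    (hf : Bd f) (hg : Bd g) (N : ℕ) : Measurable (fun x => Av T T a b f g N x) := by
  unfold Av
  refine measurable_const.mul (Finset.measurable_sum _ fun k _ => ?_)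
  exact (hf.1.comp (T.measurable.iterate _)).mul (hg.1.comp (T.measurable.iterate _))

theorem int_le {α : Type} [MeasurableSpace α] (μ : Measure α) [IsProbabilityMeasure μ] {f : α → ℝ}
    (hf : ∀ x, |f x| ≤ 1) : |∫ x, f x ∂μ| ≤ 1 := by
  have := norm_integral_le_of_norm_le_const (μ := μ) (f := f) (C := 1)
    (Eventually.of_forall fun x => by rw [Real.norm_eq_abs]; exact hf x)
  simpa using this

theorem av_le {α : Type} [MeasurableSpace α] {T S : α ≃ᵐ α} {a b : ℕ → ℕ} {f g : α → ℝ}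
    (hf : Bd f) (hg : Bd g) (N : ℕ) (x : α) : |Av T S a b f g N x| ≤ 1 := by
  unfold Av
  rcases Nat.eq_zero_or_pos N with rfl | hN
  · simp
  · rw [abs_mul, abs_inv, Nat.abs_cast, inv_mul_le_iff₀ (by exact_mod_cast hN), mul_one]
    refine (Finset.abs_sum_le_sum_abs _ _).trans ?_
    calc ∑ k ∈ Finset.range N, |f ((⇑T)^[a k] x) * g ((⇑S)^[b k] x)| ≤
        ∑ k ∈ Finset.range N, (1 : ℝ) := by
          refine Finset.sum_le_sum fun k _ => ?_
          rw [abs_mul]
          exact mul_le_one₀ (hf.2 _) (abs_nonneg _) (hg.2 _)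
      _ = N := by simp

theorem gEC : G_EC := by
  intro hCS hK2 hK4 hES X _ _ ν _ T hT a b hW f g hf hg hsf
  obtain ⟨hprob, hmeas, hce, hint, hcst, hae⟩ := hK2 X ν (⇑T) hT
  set F : X → ℝ := fun v => ∫ x, f x ∂(kap ν (⇑T) v) with hF
  set G : X → ℝ := fun v => ∫ x, g x ∂(kap ν (⇑T) v) with hG
  have hle : MeasurableSpace.invariants (⇑T) ≤ (inferInstance : MeasurableSpace X) :=
    MeasurableSpace.invariants_le _
  have hFm : Measurable F := (hmeas f hf).mono hle le_rfl
  have hGm : Measurable G := (hmeas g hg).mono hle le_rfl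
  have hF1 : ∀ v, |F v| ≤ 1 := fun v => by
    have := hprob v
    exact int_le _ hf.2
  have hG1 : ∀ v, |G v| ≤ 1 := fun v => by
    have := hprob v
    exact int_le _ hg.2
  have hAm : ∀ N, Measurable (fun x => Av T T a b f g N x) := fun N => meas_Av T a b hf hg N
  have hA1 : ∀ N x, |Av T T a b f g N x| ≤ 1 := fun N x => av_le hf hg N x
  have hdiff : ∀ N x (c : ℝ), |c| ≤ 1 → |Av T T a b f g N x - c| ≤ 2 := fun N x c hc => by
    refine (abs_sub _ _).trans ?_
    linarith [hA1 N x]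
  have hD : ∀ N, Bd (fun x => (Av T T a b f g N x - F x * G x) ^ 2 / 4) := by
    intro N
    refine ⟨(((hAm N).sub (hFm.mul hGm)).pow_const 2).div_const 4, fun x => ?_⟩
    have h1 := hdiff N x (F x * G x) (by rw [abs_mul]; exact mul_le_one₀ (hF1 x) (abs_nonneg _) (hG1 x))
    rw [abs_div, abs_pow, abs_of_pos (show (0 : ℝ) < 4 by norm_num), div_le_one (by norm_num)]
    nlinarith [abs_nonneg (Av T T a b f g N x - F x * G x)]
  -- the integrals over the components
  set ψ : ℕ → X → ℝ := fun N u => ∫ x, (Av T T a b f g N x - F x * G x) ^ 2 / 4 ∂(kap ν (⇑T) u) with hψ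
  have hψm : ∀ N, AEStronglyMeasurable (ψ N) ν := fun N =>
    ((hmeas _ (hD N)).mono hle le_rfl).aestronglyMeasurable
  have hψ1 : ∀ N u, |ψ N u| ≤ 1 := fun N u => by
    have := hprob u
    exact int_le _ (hD N).2
  have hψ0 : ∀ᵐ u ∂ν, Tendsto (fun N => ψ N u) atTop (𝓝 0) := by
    filter_upwards [hK4 X ν (⇑T) hT, hES X ν T hT f hf hsf, hcst f hf, hcst g hg] with u hu1 hu2 hu3 hu4
    have := hprob u
    have hC := hCS X (kap ν (⇑T) u) T a b hW hu1 f g hf hg hu2
    have hsq := sq_of_el (C := 2) (fun N => ((hAm N).sub measurable_const).aestronglyMeasurable)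
      (fun N => Eventually.of_forall fun x => hdiff N x _ (by
        rw [abs_mul]
        exact mul_le_one₀ (int_le _ hf.2) (abs_nonneg _) (int_le _ hg.2))) hC
    have e : ∀ N, ψ N u = (∫ x, (Av T T a b f g N x - (∫ y, f y ∂(kap ν (⇑T) u)) *
        ∫ y, g y ∂(kap ν (⇑T) u)) ^ 2 ∂(kap ν (⇑T) u)) / 4 := by
      intro N
      rw [hψ, ← integral_div]
      refine integral_congr_ae ?_
      filter_upwards [hu3, hu4] with x hx3 hx4
      show (Av T T a b f g N x - F x * G x) ^ 2 / 4 = _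
      rw [hF, hG]
      show (Av T T a b f g N x - (∫ y, f y ∂(kap ν (⇑T) x)) * (∫ y, g y ∂(kap ν (⇑T) x))) ^ 2 / 4 = _
      rw [hx3, hx4]
    simp_rw [e]
    have := hsq.div_const 4
    simpa using this
  have hlim : Tendsto (fun N => ∫ u, ψ N u ∂ν) atTop (𝓝 (∫ _u, (0 : ℝ) ∂ν)) :=
    tendsto_integral_of_dominated_convergence (fun _ => 1) hψm (integrable_const _)
      (fun N => Eventually.of_forall fun u => by rw [Real.norm_eq_abs]; exact hψ1 N u) hψ0
  rw [integral_zero] at hlim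
  have hfin : ∀ N, ∫ x, (Av T T a b f g N x - (ν[f | MeasurableSpace.invariants (⇑T)]) x *
      (ν[g | MeasurableSpace.invariants (⇑T)]) x) ^ 2 ∂ν = 4 * ∫ u, ψ N u ∂ν := by
    intro N
    have h1 := hint _ (hD N)
    have h2 : ∫ x, (Av T T a b f g N x - (ν[f | MeasurableSpace.invariants (⇑T)]) x *
      (ν[g | MeasurableSpace.invariants (⇑T)]) x) ^ 2 ∂ν =
      ∫ x, (Av T T a b f g N x - F x * G x) ^ 2 ∂ν := by
      refine integral_congr_ae ?_
      filter_upwards [hce f hf, hce g hg] with x hx1 hx2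
      show (Av T T a b f g N x - (ν[f | MeasurableSpace.invariants (⇑T)]) x *
        (ν[g | MeasurableSpace.invariants (⇑T)]) x) ^ 2 = (Av T T a b f g N x - F x * G x) ^ 2
      rw [hx1, hx2]
    rw [h2, hψ, ← h1, integral_div]
    ring
  show Tendsto _ _ _
  simp_rw [hfin]
  have := hlim.const_mul 4
  simpa using this

end Pool.Agent.Helper77.SS
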